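import Mathlib

/-!
# Shortest flip paths of `2`-triangulations of the octagon may flip a common edge

With the non-relevant edges left out, the `2`-triangulations
`T = {03, 04, 05, 14, 36, 37}` and `T' = {03, 16, 25, 26, 36, 37}` of the convex octagon are at
distance `4` in the flip graph, and one of the shortest paths flips the common edge `37`.
-/

set_option autoImplicit false

namespace Pool.Agent.Results.MP_1d99bd_co.OctagonFlips

open Finset

/-- The edges between the vertices `0, ..., n - 1` (in cyclic order) of a convex `n`-gon, sides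
included. -/
abbrev Edge (n : ℕ) : Type := {e : Fin n × Fin n // e.1 < e.2}

/-- Two edges cross in the interior of the polygon. -/
def Cross {n : ℕ} (e f : Edge n) : Prop :=
  (e.1.1 < f.1.1 ∧ f.1.1 < e.1.2 ∧ e.1.2 < f.1.2) ∨
    (f.1.1 < e.1.1 ∧ e.1.1 < f.1.2 ∧ f.1.2 < e.1.2)

instance {n : ℕ} (e f : Edge n) : Decidable (Cross e f) := by unfold Cross; infer_instance

/-- No `k + 1` edges of `T` cross pairwise. -/
def CrossFree {n : ℕ} (k : ℕ) (T : Finset (Edge n)) : Prop :=
  ∀ S ⊆ T, (∀ e ∈ S, ∀ f ∈ S, e ≠ f → Cross e f) → S.card ≤ k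

/-- `T` is a `k`-triangulation of the `n`-gon: an inclusion-maximal set of edges without `k + 1`
pairwise crossing edges. -/
def IsKTri {n : ℕ} (k : ℕ) (T : Finset (Edge n)) : Prop :=
  CrossFree k T ∧ ∀ e, e ∉ T → ¬ CrossFree k (insert e T)

/-- The `k`-triangulations of the convex `n`-gon. -/
abbrev KTri (k n : ℕ) : Type := {T : Finset (Edge n) // IsKTri k T}

/-- The flip graph: two `k`-triangulations are adjacent when they differ by the exchange of one
edge. -/
def flipGraph (k n : ℕ) : SimpleGraph (KTri k n) where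
  Adj T T' := (T.1 \ T'.1).card = 1 ∧ (T'.1 \ T.1).card = 1
  symm := ⟨fun _ _ h => ⟨h.2, h.1⟩⟩
  loopless := ⟨fun T h => by simp at h⟩

/-! ### Deciding the notions for `k = 2` -/

/-- three pairwise crossing edges -/
def Bad {n : ℕ} (T : Finset (Edge n)) : Prop :=
  ∃ e ∈ T, ∃ f ∈ T, Cross e f ∧ ∃ g ∈ T, Cross e g ∧ Cross f g

instance {n : ℕ} (T : Finset (Edge n)) : Decidable (Bad T) := by unfold Bad; infer_instance

theorem Cross.ne {n : ℕ} {e f : Edge n} (h : Cross e f) : e ≠ f := by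
  rintro rfl
  rcases h with h | h
  · exact lt_irrefl _ h.1
  · exact lt_irrefl _ h.1

theorem Cross.symm {n : ℕ} {e f : Edge n} (h : Cross e f) : Cross f e := by
  rcases h with h | h
  · exact Or.inr h
  · exact Or.inl h

theorem crossFree_two_iff {n : ℕ} (T : Finset (Edge n)) : CrossFree 2 T ↔ ¬ Bad T := by
  classical
  constructor
  · rintro h ⟨e, he, f, hf, hef, g, hg, heg, hfg⟩
    have h3 : ({e, f, g} : Finset (Edge n)).card = 3 := by
      rw [card_eq_three]
      exact ⟨e, f, g, hef.ne, heg.ne, hfg.ne, rfl⟩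
    have := h {e, f, g} (by
      intro x hx
      simp only [mem_insert, mem_singleton] at hx
      rcases hx with rfl | rfl | rfl <;> assumption) (by
      intro x hx y hy hxy
      simp only [mem_insert, mem_singleton] at hx hy
      rcases hx with rfl | rfl | rfl <;> rcases hy with rfl | rfl | rfl <;>
        first
          | exact absurd rfl hxy
          | assumption
          | exact Cross.symm (by assumption))
    omega
  · intro h S hS hc
    by_contra hcon
    push Not at hcon
    rw [two_lt_card] at hcon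
    obtain ⟨e, he, f, hf, g, hg, hef, heg, hfg⟩ := hcon
    exact h ⟨e, hS he, f, hS hf, hc e he f hf hef, g, hS hg, hc e he g hg heg, hc f hf g hg hfg⟩

theorem isKTri_two_iff {n : ℕ} (T : Finset (Edge n)) :
    IsKTri 2 T ↔ ¬ Bad T ∧ ∀ e, e ∉ T → Bad (insert e T) := by
  rw [IsKTri, crossFree_two_iff]
  simp only [crossFree_two_iff, not_not]

/-! ### The octagon -/

/-- the `2`-triangulation with the given relevant edges (those of length at least `3`) -/
def tri (R : List (ℕ × ℕ)) : Finset (Edge 8) :=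
  univ.filter fun e => (e.1.2 : ℕ) - (e.1.1 : ℕ) ≤ 2 ∨ 6 ≤ (e.1.2 : ℕ) - (e.1.1 : ℕ) ∨
    ((e.1.1 : ℕ), (e.1.2 : ℕ)) ∈ R

/-- the edge between two vertices -/
def edge (a b : Fin 8) (h : a < b) : Edge 8 := ⟨(a, b), h⟩

/-- start of the path -/
def T0 : Finset (Edge 8) := tri [(0, 3), (0, 4), (0, 5), (1, 4), (3, 6), (3, 7)]

/-- second vertex of the path -/
def T1 : Finset (Edge 8) := tri [(0, 3), (0, 4), (0, 5), (1, 4), (3, 6), (1, 6)]

/-- third vertex of the path -/
def T2 : Finset (Edge 8) := tri [(0, 3), (0, 4), (0, 5), (2, 6), (3, 6), (1, 6)]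

/-- fourth vertex of the path -/
def T3 : Finset (Edge 8) := tri [(0, 3), (2, 5), (0, 5), (2, 6), (3, 6), (1, 6)]

/-- end of the path -/
def T4 : Finset (Edge 8) := tri [(0, 3), (1, 6), (2, 5), (2, 6), (3, 6), (3, 7)]

theorem t0 : IsKTri 2 T0 := by rw [isKTri_two_iff]; decide +kernel
theorem t1 : IsKTri 2 T1 := by rw [isKTri_two_iff]; decide +kernel
theorem t2 : IsKTri 2 T2 := by rw [isKTri_two_iff]; decide +kernel
theorem t3 : IsKTri 2 T3 := by rw [isKTri_two_iff]; decide +kernel
theorem t4 : IsKTri 2 T4 := by rw [isKTri_two_iff]; decide +kernel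

theorem a01 : (flipGraph 2 8).Adj ⟨T0, t0⟩ ⟨T1, t1⟩ := by
  change (T0 \ T1).card = 1 ∧ (T1 \ T0).card = 1
  decide +kernel
theorem a12 : (flipGraph 2 8).Adj ⟨T1, t1⟩ ⟨T2, t2⟩ := by
  change (T1 \ T2).card = 1 ∧ (T2 \ T1).card = 1
  decide +kernel
theorem a23 : (flipGraph 2 8).Adj ⟨T2, t2⟩ ⟨T3, t3⟩ := by
  change (T2 \ T3).card = 1 ∧ (T3 \ T2).card = 1
  decide +kernel
theorem a34 : (flipGraph 2 8).Adj ⟨T3, t3⟩ ⟨T4, t4⟩ := by
  change (T3 \ T4).card = 1 ∧ (T4 \ T3).card = 1
  decide +kernel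

/-- one flip changes the number of missing edges of `Y` by at most one -/
theorem step_le {k n : ℕ} {X Z : KTri k n} (h : (flipGraph k n).Adj X Z) (Y : Finset (Edge n)) :
    (Y \ X.1).card ≤ (Y \ Z.1).card + 1 := by
  classical
  have h1 : (Z.1 \ X.1).card = 1 := h.2
  have hsub : Y \ X.1 ⊆ (Y \ Z.1) ∪ (Z.1 \ X.1) := by
    intro e he
    rw [mem_sdiff] at he
    by_cases hz : e ∈ Z.1
    · exact mem_union_right _ (mem_sdiff.mpr ⟨hz, he.2⟩)
    · exact mem_union_left _ (mem_sdiff.mpr ⟨he.1, hz⟩)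
  have := (card_le_card hsub).trans (card_union_le _ _)
  omega

theorem walk_le {k n : ℕ} {X Z : KTri k n} (p : (flipGraph k n).Walk X Z) (Y : Finset (Edge n)) :
    (Y \ X.1).card ≤ (Y \ Z.1).card + p.length := by
  induction p with
  | nil => simp
  | cons h p ih =>
    rw [SimpleGraph.Walk.length_cons]
    have := step_le h Y
    omega

theorem first_step (X : KTri 2 8) (h : (flipGraph 2 8).Adj ⟨T0, t0⟩ X) : 3 ≤ (T4 \ X.1).card := by
  classical
  by_contra hcon
  push Not at hcon
  have h1 : (T0 \ X.1).card = 1 := h.1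
  have h2 : (X.1 \ T0).card = 1 := h.2
  obtain ⟨e, he⟩ := card_eq_one.mp h1
  obtain ⟨f, hf⟩ := card_eq_one.mp h2
  have heT : e ∈ T0 := by
    have : e ∈ T0 \ X.1 := by rw [he]; exact mem_singleton_self e
    exact (mem_sdiff.mp this).1
  have hfT : f ∉ T0 := by
    have : f ∈ X.1 \ T0 := by rw [hf]; exact mem_singleton_self f
    exact (mem_sdiff.mp this).2
  have hX : X.1 = insert f (T0.erase e) := by
    ext x
    have e1 : x ∈ T0 \ X.1 ↔ x = e := by rw [he, mem_singleton]
    have e2 : x ∈ X.1 \ T0 ↔ x = f := by rw [hf, mem_singleton]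
    rw [mem_sdiff] at e1 e2
    rw [mem_insert, mem_erase]
    by_cases hx : x ∈ T0
    · by_cases hx' : x ∈ X.1
      · have : x ≠ e := fun hh => (e1.mpr hh).2 hx'
        tauto
      · have : x = e := e1.mp ⟨hx, hx'⟩
        have h3 : x ≠ f := fun hh => hfT (hh ▸ hx)
        tauto
    · tauto
  have hbad := (isKTri_two_iff X.1).mp X.2
  rw [hX] at hcon hbad
  have key : ∀ f ∈ T0ᶜ, ∀ e ∈ T0, (T4 \ insert f (T0.erase e)).card < 3 →
      Bad (insert f (T0.erase e)) := by
    decide +kernel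
  exact hbad.1 (key f (mem_compl.mpr hfT) e heT hcon)

theorem four_le {X Y : KTri 2 8} (q : (flipGraph 2 8).Walk X Y) (hX : X = ⟨T0, t0⟩)
    (hY : Y = ⟨T4, t4⟩) : 4 ≤ q.length := by
  cases q with
  | nil =>
    have h : T0 = T4 := congrArg Subtype.val (hX.symm.trans hY)
    exact absurd h (by decide +kernel)
  | cons h q' =>
    rw [SimpleGraph.Walk.length_cons]
    rw [hX] at h
    have h1 := first_step _ h
    have h2 := walk_le q' T4
    have h3 : (T4 \ Y.1).card = 0 := by
      have : Y.1 = T4 := congrArg Subtype.val hY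
      rw [this, sdiff_self]
      rfl
    omega

/-- Two `2`-triangulations `T`, `T'` of the convex octagon with a common edge `e` and a shortest
path `p` from `T` to `T'` in the flip graph one of whose steps flips `e`. -/
theorem result : ∃ (T T' : KTri 2 8) (e : Edge 8) (p : (flipGraph 2 8).Walk T T'),
    e ∈ T.1 ∧ e ∈ T'.1 ∧ (∀ q : (flipGraph 2 8).Walk T T', p.length ≤ q.length) ∧
      ∃ s ∈ p.darts, e ∈ s.fst.1 ∧ e ∉ s.snd.1 := by
  refine ⟨⟨T0, t0⟩, ⟨T4, t4⟩, edge 3 7 (by decide),
    .cons a01 (.cons a12 (.cons a23 (.cons a34 .nil))), ?_, ?_, ?_, ?_⟩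
  · change edge 3 7 (by decide) ∈ T0
    decide +kernel
  · change edge 3 7 (by decide) ∈ T4
    decide +kernel
  · intro q
    exact four_le q rfl rfl
  · refine ⟨⟨(⟨T0, t0⟩, ⟨T1, t1⟩), a01⟩, ?_, ?_, ?_⟩
    · simp
    · change edge 3 7 (by decide) ∈ T0
      decide +kernel
    · change edge 3 7 (by decide) ∉ T1
      decide +kernel

end Pool.Agent.Results.MP_1d99bd_co.OctagonFlips
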